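import Mathlib
import Pool.Agent.H800.FS.Haus
import Pool.Agent.H800.FS.K4

set_option autoImplicit false

namespace Pool.Agent.Results.MP_68f9b1_gt.FourDimensional

open Pool.Agent.Helper131.FS.Weak
open MeasureTheory

/-- Let `S` be a free boundary minimal submanifold of dimension `4` of the closed unit ball of
`ℝⁿ`, `n` arbitrary, and let `f` be a conformal diffeomorphism of the ball. Then
`|f(∂Σ)| ≤ |∂Σ|` (volumes with multiplicity). If moreover the boundary is a measurable subset `Γ`
of the sphere, then the three-dimensional Hausdorff measure of `f '' Γ` is at most that of `Γ`. -/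
theorem result (n : ℕ) (S : FreeBoundaryMinimal (EuclideanSpace ℝ (Fin n)) 4)
    (f : EuclideanSpace ℝ (Fin n) → EuclideanSpace ℝ (Fin n)) (hf : IsConformalDiffeo f) :
    S.imageBoundaryVolume f ≤ S.boundaryVolume ∧
    ∀ Γ : Set (EuclideanSpace ℝ (Fin n)), S.BoundaryIs Γ →
      Measure.hausdorffMeasure 3 (f '' Γ) ≤ Measure.hausdorffMeasure 3 Γ := by
  obtain ⟨h1, h2⟩ := Pool.Agent.H800.FS.final (by norm_num) Pool.Agent.H800.FS.K4.cert n S f hf
  refine ⟨h1, fun Γ hΓ => ?_⟩
  have h3 := h2 Γ hΓ
  have e : ((4 : ℕ) : ℝ) - 1 = 3 := by norm_num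
  rw [e] at h3
  exact h3

end Pool.Agent.Results.MP_68f9b1_gt.FourDimensional
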